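import Mathlib
import Pool.Graph.R_seed8.Helper816.HSNarrow

set_option autoImplicit false
set_option linter.unusedSectionVars false

open Finset MvPolynomial

namespace Pool.Agent.KS6_36.IvlDefect

open Pool.Agent.Helper816
open Pool.Agent.Helper816.TCC Pool.Agent.Helper816.TCAlg Pool.Agent.Helper816.TCFin
open Pool.Agent.Helper816.TC (Mem Adj conn Inn vx_iff)
open Pool.Agent.Helper816.Count (wt)
open Pool.Agent.Helper816.HSPairs Pool.Agent.Helper816.HSLow

variable {e : ℕ} {g : Fin (e + 1) → ℕ}

/-- The sharper upper bounds for proper subsets of the interval. -/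
theorem ub2 (he : 2 ≤ e) (hg : StrictMono g) (h0 : 0 < g 0)
    (hδ : e + 1 ≤ g (Fin.last e) - g 0) :
    ∃ R : Finset ((Option (Fin (e + 1)) → ℕ) × (Option (Fin (e + 1)) → ℕ)),
      (g (Fin.last e) - g 0 < 2 * e →
        2 * R.card ≤ e * (e + 1) +
          2 * ((g (Fin.last e) - g 0 - e) * (g (Fin.last e) - g 0 - e + 1))) ∧
      (2 * e ≤ g (Fin.last e) - g 0 →
        32 * R.card ≤ 16 * e * (g (Fin.last e) - g 0 + 1) +
          (4 * (g (Fin.last e) - g 0) - 3 * e) ^ 2) ∧
      ∀ a b : Option (Fin (e + 1)) → ℕ,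
        (addConGen (fun x y => (x, y) ∈ R)) a b ↔ TC.val (gam g) a = TC.val (gam g) b := by
  classical
  obtain ⟨Cp, hCp, N, T, τ, h1, h2, h3, h4, h5, h5', h6, h7, h8⟩ := cp (by omega) hg h0
  have D := data (by omega) hg h0
  have hcard : Fintype.card (Option (Fin (e + 1))) = (e - 1) + 3 := by
    rw [Fintype.card_option, Fintype.card_fin]; omega
  obtain ⟨δ, hδ'⟩ := Nat.exists_eq_add_of_le (by omega : e ≤ g (Fin.last e) - g 0)
  have hemp : ∀ n ∈ (∅ : Finset (ℤ × ℤ)),
      Mem (gam g) (n - gam g (some (Fin.last e))) ∧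
      ¬ Adj (gam g) (n - gam g (some (Fin.last e))) (some 0) (some 0) ∧
      ¬ Adj (gam g) (n - gam g (some (Fin.last e))) none none ∧
      Adj (gam g) n (some 0) (some 0) ∧ conn (gam g) n (some 0) (some (Fin.last e)) := by
    simp
  by_cases hdense : g (Fin.last e) - g 0 < 2 * e
  · obtain ⟨R, hR, hgen⟩ := D.count Cp hCp (g (Fin.last e) - g 0 - e) (e - 1) hcard (by omega) (by
      intro b hb hb0 hbg s hs
      have hb' := (hCp b).1 hb
      have hbv : 0 < vv (g (Fin.last e)) b := by
        rcases hb'.2.2.2 with h | h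
        · exact absurd h hb0
        · exact h
      exact pairs_le (by omega) hg h0 b hb'.1 hbv hbg s hs) ∅ hemp
    have hN : N = g (Fin.last e) - g 0 := by
      rcases h1 with h | h
      · exact h
      · omega
    have hT := h7 (by omega)
    have hτ : τ = 1 := by
      rcases Nat.lt_or_ge τ 2 with h | h
      · omega
      · exfalso
        have : 2 * N ≤ τ * N := Nat.mul_le_mul_right _ h
        omega
    rw [hτ, one_mul] at h5
    refine ⟨R, fun _ => ?_, fun hcon => absurd hcon (by omega), hgen⟩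
    have h9 : g (Fin.last e) - g 0 - e = δ := by omega
    rw [h9] at hR ⊢
    have h10 : e - 1 + 1 = e := by omega
    rw [h10, Finset.card_empty] at hR
    have hT2 : T ≤ e + 2 * δ := by omega
    have h11 : (δ + 1) * Cp.card ≤ (δ + 1) * (e + 2 * δ) := Nat.mul_le_mul_left _ (by omega)
    obtain ⟨f, hf⟩ : ∃ f, e = δ + 1 + f := ⟨e - (δ + 1), by omega⟩
    have h12 : e - 1 - δ = f := by omega
    rw [h12] at hR
    have h13 : (δ + 1) * (e + 2 * δ) + f * e + e = e * (e + 1) + 2 * (δ * (δ + 1)) := by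
      rw [hf]; ring
    omega
  · obtain ⟨R, hR, hgen⟩ := D.count Cp hCp (e - 1) (e - 1) hcard (le_refl _) (by
      intro b _ _ _ s hs
      have hsub : s ⊆ ((univ.erase (some 0)).erase (some (Fin.last e))).erase none := by
        intro i hi
        obtain ⟨h1, h2, h3⟩ := D.inn_ne (hs i hi)
        simp only [Finset.mem_erase, Finset.mem_univ, and_true]
        exact ⟨h3, h2, h1⟩
      have h7 := Finset.card_le_card hsub
      rw [Finset.card_erase_of_mem (by simp),
        Finset.card_erase_of_mem (by simp [D.hxy.symm]),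
        Finset.card_erase_of_mem (by simp), Finset.card_univ, hcard] at h7
      omega) ∅ hemp
    have h9 : e - 1 + 1 = e := by omega
    have h10 : (e - 1 - (e - 1)) * e = 0 := by simp
    rw [h9, h10, Finset.card_empty] at hR
    refine ⟨R, fun hcon => absurd hcon hdense, fun _ => ?_, hgen⟩
    have hsub : 4 * (g (Fin.last e) - g 0) - 3 * e = 4 * δ + e := by omega
    rw [hsub, hδ']
    rcases h1 with h | h
    · have hτ : τ = 1 := by
        rcases Nat.lt_or_ge τ 2 with h' | h'
        · omega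
        · exfalso
          have : 2 * N ≤ τ * N := Nat.mul_le_mul_right _ h'
          omega
      rw [hτ, one_mul] at h5
      rw [h, hδ'] at h8
      have h11 : e + δ - e = δ := by omega
      rw [h11] at h8
      have h12 : e * Cp.card ≤ e * T := Nat.mul_le_mul_left _ (by omega)
      calc 32 * R.card = 16 * (2 * R.card) := by ring
        _ ≤ 16 * (e * T + e) := Nat.mul_le_mul_left _ (by omega)
        _ = 16 * e * T + 16 * e := by ring
        _ ≤ 16 * e * (e + δ) + (4 * δ + e) ^ 2 + 16 * e := Nat.add_le_add_right h8 _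
        _ = _ := by ring
    · rw [hδ'] at h h4
      have h11 : e * T ≤ N ^ 2 := by
        have : e * (T + 1) = e * T + e := by ring
        omega
      have h12 : e * Cp.card + e * τ ≤ e + τ * N ^ 2 := by
        calc e * Cp.card + e * τ = e * (Cp.card + τ) := by ring
          _ ≤ e * (1 + τ * T) := Nat.mul_le_mul_left _ h5
          _ = e + τ * (e * T) := by ring
          _ ≤ _ := by
            have := Nat.mul_le_mul_left τ h11
            omega
      have h13 : τ * N ^ 2 ≤ (e + δ) * N := by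
        calc τ * N ^ 2 = (τ * N) * N := by ring
          _ ≤ (e + δ) * N := Nat.mul_le_mul_right _ h4
      have h14 : e ≤ e * τ := Nat.le_mul_of_pos_right _ (by omega)
      have h15 : 2 * ((e + δ) * N) ≤ (e + δ) ^ 2 := by
        calc 2 * ((e + δ) * N) = (e + δ) * (2 * N) := by ring
          _ ≤ (e + δ) * (e + δ) := Nat.mul_le_mul_left _ h
          _ = (e + δ) ^ 2 := by ring
      have h16 : 32 * R.card ≤ 8 * (e + δ) ^ 2 + 16 * e := by omega
      refine h16.trans ?_
      nlinarith [Nat.zero_le (e * δ), Nat.zero_le (e * e), Nat.zero_le (δ * δ)]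

/-- The resulting bounds for generating sets of the tangent cone ideal. -/
theorem cone_le (k : Type) [Field k] (he : 1 ≤ e) (hg : StrictMono g) (h0 : 0 < g 0)
    (hδ : e + 1 ≤ g (Fin.last e) - g 0) :
    ∃ s : Finset (MvPolynomial (Fin (e + 1)) k),
      Ideal.span (s : Set (MvPolynomial (Fin (e + 1)) k)) = Ideal.span (inGen k g) ∧
      (g (Fin.last e) - g 0 < 2 * e →
        2 * s.card ≤ e * (e + 1) +
          2 * ((g (Fin.last e) - g 0 - e) * (g (Fin.last e) - g 0 - e + 1))) ∧
      (2 * e ≤ g (Fin.last e) - g 0 →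
        32 * s.card ≤ 16 * e * (g (Fin.last e) - g 0 + 1) +
          (4 * (g (Fin.last e) - g 0) - 3 * e) ^ 2) := by
  rcases Nat.lt_or_ge e 2 with he2 | he2
  · have he1 : e = 1 := by omega
    obtain ⟨R, hR, hpres⟩ := HSNarrow.e_one he1 hg h0
    obtain ⟨s, hs1, hs2⟩ := HSNarrow.exists_S k R hpres
    refine ⟨s, hs2, fun h => absurd h (by omega), fun h => ?_⟩
    have h1 : s.card ≤ 1 := by omega
    have h2 : 16 * e * 3 ≤ 16 * e * (g (Fin.last e) - g 0 + 1) :=
      Nat.mul_le_mul_left _ (by omega)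
    omega
  · obtain ⟨R, h1, h2, hpres⟩ := ub2 he2 hg h0 hδ
    obtain ⟨s, hs1, hs2⟩ := HSNarrow.exists_S k R hpres
    refine ⟨s, hs2, fun h => ?_, fun h => ?_⟩
    · have := h1 h
      omega
    · have := h2 h
      omega

/-- The bound which depends on the width only. -/
theorem cone_le' (k : Type) [Field k] (he : 1 ≤ e) (hg : StrictMono g) (h0 : 0 < g 0)
    (hδ : e + 1 ≤ g (Fin.last e) - g 0) :
    ∃ s : Finset (MvPolynomial (Fin (e + 1)) k),
      Ideal.span (s : Set (MvPolynomial (Fin (e + 1)) k)) = Ideal.span (inGen k g) ∧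
      s.card ≤ (g (Fin.last e) - g 0).choose 2 + 2 ∧
      (g (Fin.last e) - g 0 ∣ g 0 → s.card ≤ (g (Fin.last e) - g 0).choose 2 + 1) := by
  rcases Nat.lt_or_ge e 2 with he2 | he2
  · have he1 : e = 1 := by omega
    obtain ⟨R, hR, hpres⟩ := HSNarrow.e_one he1 hg h0
    obtain ⟨s, hs1, hs2⟩ := HSNarrow.exists_S k R hpres
    exact ⟨s, hs2, by omega, fun _ => by omega⟩
  · obtain ⟨R, h1, h2, hpres⟩ := HSNarrow.ub he2 hg h0 hδ
    obtain ⟨s, hs1, hs2⟩ := HSNarrow.exists_S k R hpres
    have h2c := Final999.two_choose (g (Fin.last e) - g 0)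
    refine ⟨s, hs2, by omega, fun h => ?_⟩
    have := h2 h
    omega

end Pool.Agent.KS6_36.IvlDefect
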